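import Pool.Agent.MP_3ce0a0_al.H90.YA

/-
Only edges with support of size at most one carry cycles.
-/

namespace Pool.Agent.MP_3ce0a0_al.H90

open Pool.Agent.MP_3ce0a0_al.H79 Equiv

section
variable {ι G V E : Type} [Fintype ι] [DecidableEq ι] [Group G] [MulAction G V] [MulAction G E]
  [Fintype V] [Fintype E] {m : ℕ} {π : Out (FG m) →* (HV m ≃ₗ[ℂ] HV m)} {ψ : G →* Out (FG m)}
  {o t : E → V} {j : HV m →ₗ[ℂ] (E → ℂ)} {w : WS ι G} {N : NS ι (Out (FG m))} {k : ℕ}
  {sV : V → Finset ι} {sE : E → Finset ι}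

/-- the subgroup attached to the complement of `S`. -/
def BS (w : WS ι G) (S : Finset ι) : Subgroup G :=
  Subgroup.closure ({g | ∃ σ : Perm ι, Perm.sign σ = 1 ∧ (∀ a ∈ S, σ a = a) ∧ g = w.π σ} ∪
    {g | ∃ a b, a ∉ S ∧ b ∉ S ∧ g = w.ε a * w.ε b})

theorem fix_iff {Ω : Type} [MulAction G Ω] {s : Ω → Finset ι}
    (hs : Supp (w.map (MulAction.toPermHom G Ω)) k s) {S : Finset ι} (hS : k + 3 ≤ Sᶜ.card)
    (x : Ω) : (∀ b ∈ BS w S, b • x = x) ↔ s x ⊆ S := by
  rw [← fx_iff hs hS]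
  constructor
  · intro h
    refine ⟨fun σ hσ hf => ?_, fun a ha b hb => ?_⟩
    · exact h (w.π σ) (Subgroup.subset_closure (Or.inl
        ⟨σ, hσ, fun a ha => hf a (by simpa using ha), rfl⟩))
    · have := h (w.ε a * w.ε b) (Subgroup.subset_closure (Or.inr
        ⟨a, b, Finset.mem_compl.1 ha, Finset.mem_compl.1 hb, rfl⟩))
      rw [mul_smul] at this
      exact this
  · intro h b hb
    have : BS w S ≤ MulAction.stabilizer G x := by
      refine (Subgroup.closure_le _).2 ?_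
      rintro g (⟨σ, hσ, hf, rfl⟩ | ⟨a, b, ha, hb, rfl⟩)
      · exact h.1 σ hσ fun a ha => hf a (by simpa using ha)
      · have := h.2 a (Finset.mem_compl.2 ha) b (Finset.mem_compl.2 hb)
        show (w.ε a * w.ε b) • x = x
        rw [mul_smul]
        exact this
    exact this hb

omit [Fintype V] in
theorem comm_BS (hε : ∀ a, ψ (w.ε a) = N.ε a) (hπ : ∀ σ, ψ (w.π σ) = N.π σ) {S : Finset ι}
    {a b : ι} (ha : a ∈ S) (hb : b ∈ S) (hab : a ≠ b) :
    (∀ g ∈ BS w S, Commute (N.ρ a b) (ψ g)) ∧ ∀ g ∈ BS w S, Commute (N.lam a b) (ψ g) := by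
  have key : ∀ θ : Out (FG m),
      (∀ σ : Perm ι, (∀ a ∈ S, σ a = a) → Commute θ (N.π σ)) →
      (∀ c, c ∉ S → Commute θ (N.ε c)) → ∀ g ∈ BS w S, Commute θ (ψ g) := by
    intro θ h1 h2 g hg
    induction hg using Subgroup.closure_induction with
    | mem x hx =>
      rcases hx with ⟨σ, _, hf, rfl⟩ | ⟨c, c', hc, hc', rfl⟩
      · rw [hπ]; exact h1 σ hf
      · rw [map_mul, hε, hε]; exact (h2 c hc).mul_right (h2 c' hc')
    | one => rw [map_one]; exact Commute.one_right _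
    | mul x y _ _ hx hy => rw [map_mul]; exact hx.mul_right hy
    | inv x _ hx => rw [map_inv]; exact hx.inv_right
  constructor
  · refine key _ (fun σ hf => ?_) fun c hc => ?_
    · have := N.π_ρ σ a b hab
      rw [hf a ha, hf b hb] at this
      exact this.symm
    · exact (N.ε_other a b c hab (fun e => hc (e ▸ ha)) (fun e => hc (e ▸ hb))).symm
  · refine key _ (fun σ hf => ?_) fun c hc => ?_
    · have := N.π_lam σ a b hab
      rw [hf a ha, hf b hb] at this
      exact this.symm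
    · exact (ε_comm_lam N (c := c) hab (fun e => hc (e ▸ ha)) (fun e => hc (e ▸ hb))).symm

omit [Fintype V] in
theorem grw (hA : RealA π ψ o t j) :
    GrW o t (w.map (MulAction.toPermHom G V)) (w.map (MulAction.toPermHom G E)) :=
  ⟨fun σ e => hA.1 (w.π σ) e, fun σ e => hA.2.1 (w.π σ) e, fun a e => hA.1 (w.ε a) e,
    fun a e => hA.2.1 (w.ε a) e⟩

omit [Fintype V] in
/-- oddness for classes supported in a set of the right size. -/
theorem top0 (h1 : SConn) (h2 : STop) (hε : ∀ a, ψ (w.ε a) = N.ε a)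
    (hπ : ∀ σ, ψ (w.π σ) = N.π σ) (hA : RealA π ψ o t j) (hB : RealB π ψ o t j)
    (hV : Supp (w.map (MulAction.toPermHom G V)) k sV)
    (hE : Supp (w.map (MulAction.toPermHom G E)) k sE) (hn : 5 * k + 17 ≤ Fintype.card ι)
    (d : ℕ) (hd : ∀ h e, j h e ≠ 0 → (sE e).card ≤ d) (S : Finset ι) (hS : S.card = 3 * k + 14)
    (a' : ι) (ha' : a' ∈ S) (h : HV m) (hh : ∀ e, j h e ≠ 0 → sE e ⊆ S.erase a')
    (e : E) (i f : ι) (he : (sE e).card = d) (hi : i ∈ sE e) (hf : f ∉ sE e) :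
    j h (w.ε i • w.ε f • e) = -j h e := by
  have hC := h1 ι V E o t _ _ k sV sE (by omega) (grw (w := w) hA) hV hE hA.2.2.2.1
  have hSc : k + 3 ≤ Sᶜ.card := by rw [Finset.card_compl]; omega
  have : Nonempty V := hA.2.2.1
  have hemb : Emb (N.map π).toWS (w.map (MulAction.toPermHom G E)) j := by
    refine ⟨hA.2.2.2.2.2.1, fun σ z ω => ?_, fun a z ω => ?_⟩
    · have := hA.2.2.2.2.2.2.2.1 (w.π σ) z ω
      rw [hπ] at this
      exact this
    · have := hA.2.2.2.2.2.2.2.1 (w.ε a) z ω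
      rw [hε] at this
      exact this
  have hB' := hB (BS w S)
    (by
      obtain ⟨v, hv⟩ := exists_supp_sub hV S (by omega)
      exact ⟨v, (fix_iff hV hSc v).2 hv⟩)
    (fun u v hu hv => lnk_mono (fun e he => (fix_iff hE hSc e).2 he)
      (hC.2 S (by omega) u v ((fix_iff hV hSc u).1 hu) ((fix_iff hV hSc v).1 hv)))
  refine h2 ι (HV m) E (N.map π) (w.map (MulAction.toPermHom G E)) j k d sE S hemb hE
    (by omega) (by omega) hd ?_ a' ha' h hh e i f he hi hf
  intro a ha b hb hab z hz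
  have hc := comm_BS (w := w) hε hπ ha hb hab
  exact ⟨fun ω hω => (fix_iff hE hSc ω).1
      (hB' _ hc.1 z (fun e he => (fix_iff hE hSc e).2 (hz e he)) ω hω),
    fun ω hω => (fix_iff hE hSc ω).1
      (hB' _ hc.2 z (fun e he => (fix_iff hE hSc e).2 (hz e he)) ω hω)⟩

omit [Fintype V] [MulAction G V] [Fintype E] in
theorem supp_εε (hE : Supp (w.map (MulAction.toPermHom G E)) k sE) (a b : ι) (e : E) :
    sE (w.ε a • w.ε b • e) = sE e :=
  (hE.2.2.2.2 a (w.ε b • e)).trans (hE.2.2.2.2 b e)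

/-- oddness on edges of maximal support. -/
theorem top1 (h1 : SConn) (h2 : STop) (h4 : SGr) (hε : ∀ a, ψ (w.ε a) = N.ε a)
    (hπ : ∀ σ, ψ (w.π σ) = N.π σ) (hA : RealA π ψ o t j) (hB : RealB π ψ o t j)
    (hV : Supp (w.map (MulAction.toPermHom G V)) k sV)
    (hE : Supp (w.map (MulAction.toPermHom G E)) k sE) (hn : 5 * k + 17 ≤ Fintype.card ι)
    (d : ℕ) (hd : ∀ h e, j h e ≠ 0 → (sE e).card ≤ d) (h : HV m)
    (e : E) (i f : ι) (he : (sE e).card = d) (hi : i ∈ sE e) (hf : f ∉ sE e) :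
    j h (w.ε i • w.ε f • e) = -j h e := by
  classical
  have hC := h1 ι V E o t _ _ k sV sE (by omega) (grw (w := w) hA) hV hE hA.2.2.2.1
  have : Nonempty V := hA.2.2.1
  have hk := hE.1 e
  obtain ⟨S₀, hIS, hS₀⟩ := Finset.exists_superset_card_eq (s := sE e) (n := 3 * k + 13)
    (by omega) (by omega)
  obtain ⟨a', ha'⟩ : ∃ a', a' ∉ S₀ := by
    by_contra hcon
    have : S₀ = Finset.univ := Finset.eq_univ_iff_forall.2 fun a => by
      by_contra h0; exact hcon ⟨a, h0⟩
    rw [this, Finset.card_univ] at hS₀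
    omega
  set c : E → ℂ := fun x => if sE e ⊆ sE x then j h x else 0 with hc
  have hc0 : ∀ x, c x ≠ 0 → sE x = sE e := by
    intro x hx
    by_cases hs : sE e ⊆ sE x
    · have : j h x ≠ 0 := by simpa [hc, hs] using hx
      exact (Finset.eq_of_subset_of_card_le hs (by rw [he]; exact hd h x this)).symm
    · exact absurd (by simp [hc, hs]) hx
  obtain ⟨c', hc', hcc⟩ := (h4 V E o t).1 (fun v => sV v ⊆ S₀ ∧ ¬ sE e ⊆ sV v)
    (fun x => sE x ⊆ S₀ ∧ ¬ sE e ⊆ sE x) c
    (by
      intro v hv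
      constructor
      · obtain ⟨x, hx, hx0⟩ := exists_of_bd_ne hv
        have := hc0 x hx0
        rcases hx with rfl | rfl
        · exact ((hC.1 x).1.trans this.subset).trans hIS
        · exact ((hC.1 x).2.trans this.subset).trans hIS
      · intro hI
        apply hv
        rw [bd_congr (c' := j h) fun x hx => by
          have : sE e ⊆ sE x := by
            rcases hx with rfl | rfl
            · exact hI.trans (hC.1 x).1
            · exact hI.trans (hC.1 x).2
          simp [hc, this]]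
        exact bd_eq_zero_of_cyc ((hA.2.2.2.2.2.2.1 _).1 ⟨h, rfl⟩) v)
    (fun u v hu hv => link_avoid hV hC.2 S₀ (sE e) (by omega) hk.le u v hu.1 hu.2 hv.1 hv.2)
  obtain ⟨h', rfl⟩ := (hA.2.2.2.2.2.2.1 c').2 hc'
  have := top0 h1 h2 hε hπ hA hB hV hE hn d hd (insert a' S₀)
    (by rw [Finset.card_insert_of_notMem ha']; omega) a' (Finset.mem_insert_self _ _) h'
    (by
      intro x hx
      rw [Finset.erase_insert ha']
      by_cases hq : sE x ⊆ S₀ ∧ ¬ sE e ⊆ sE x
      · exact hq.1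
      · rw [hcc x hq] at hx
        rw [hc0 x hx]; exact hIS)
    e i f he hi hf
  rw [hcc e (fun hq => hq.2 subset_rfl),
    hcc _ (fun hq => hq.2 (by rw [supp_εε hE]))] at this
  simpa [hc, supp_εε hE] using this

/-- relative cycles lift to cycles. -/
theorem lift_rel (h1 : SConn) (h4 : SGr) (hA : RealA π ψ o t j)
    (hV : Supp (w.map (MulAction.toPermHom G V)) k sV)
    (hE : Supp (w.map (MulAction.toPermHom G E)) k sE) (hn : 5 * k + 17 ≤ Fintype.card ι)
    (I : Finset ι) (hI : I.card ≤ k) (c : E → ℂ) (hc : ∀ v, I ⊆ sV v → bd o t c v = 0) :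
    ∃ h, ∀ e, I ⊆ sE e → j h e = c e := by
  have hC := h1 ι V E o t _ _ k sV sE (by omega) (grw (w := w) hA) hV hE hA.2.2.2.1
  have : Nonempty V := hA.2.2.1
  obtain ⟨c', hc', hcc⟩ := (h4 V E o t).1 (fun v => ¬ I ⊆ sV v)
    (fun x => sE x ⊆ Finset.univ ∧ ¬ I ⊆ sE x) c (fun v hv hI => hv (hc v hI))
    (fun u v hu hv => link_avoid hV hC.2 Finset.univ I (by rw [Finset.card_univ]; omega) hI u v
      (Finset.subset_univ _) hu (Finset.subset_univ _) hv)
  obtain ⟨h', rfl⟩ := (hA.2.2.2.2.2.2.1 c').2 hc'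
  exact ⟨h', fun e he => hcc e fun hq => hq.2 he⟩

omit [Fintype V] in
/-- even permutations fixing `i` and `f` preserve the components of the fixed subgraph. -/
theorem small (h3 : SSmall) (hε : ∀ a, ψ (w.ε a) = N.ε a) (hπ : ∀ σ, ψ (w.π σ) = N.π σ)
    (hCr : RealC ψ o t) (hV : Supp (w.map (MulAction.toPermHom G V)) k sV)
    (hn : 5 * k + 17 ≤ Fintype.card ι) (i f : ι) (σ : Perm {a // a ≠ i ∧ a ≠ f})
    (hσ : Perm.sign σ = 1) (v : V) (hv : (w.ε i * w.ε f) • v = v) :
    Lnk o t (fun e => (w.ε i * w.ε f) • e = e) v (w.π (Perm.ofSubtype σ) • v) := by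
  classical
  obtain ⟨Ω, hfin, q, A, hq, hqL, hAq⟩ := hCr (w.ε i * w.ε f)
  let C := Subgroup.centralizer {ψ (w.ε i * w.ε f)}
  have hCdef : C = Subgroup.centralizer {ψ (w.ε i * w.ε f)} := rfl
  have hmem : ∀ x : Out (FG m), Commute (N.ε i) x → Commute (N.ε f) x → x ∈ C := by
    intro x a1 a2
    rw [hCdef, Subgroup.mem_centralizer_singleton_iff, map_mul, hε, hε]
    exact (a1.mul_left a2).symm
  have hcπ : ∀ τ : Perm {a // a ≠ i ∧ a ≠ f},
      Commute (w.π (Perm.ofSubtype τ)) (w.ε i * w.ε f) := by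
    intro τ
    have a1 := w.π_ε (Perm.ofSubtype τ) i
    have a2 := w.π_ε (Perm.ofSubtype τ) f
    rw [Perm.ofSubtype_apply_of_not_mem τ (by simp)] at a1 a2
    exact Commute.mul_right a1 a2
  have hcε : ∀ a b, Commute (w.ε a * w.ε b) (w.ε i * w.ε f) := fun a b =>
    Commute.mul_left (Commute.mul_right (w.ε_comm a i) (w.ε_comm a f))
      (Commute.mul_right (w.ε_comm b i) (w.ε_comm b f))
  have hmemψ : ∀ c : G, Commute c (w.ε i * w.ε f) → ψ c ∈ C := by
    intro c hc
    rw [hCdef, Subgroup.mem_centralizer_singleton_iff]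
    exact hc.map ψ
  have hfix : ∀ c : G, Commute c (w.ε i * w.ε f) → ∀ x : V, (w.ε i * w.ε f) • x = x →
      (w.ε i * w.ε f) • c • x = c • x := by
    intro c hc x hx
    rw [← mul_smul, ← hc.eq, mul_smul, hx]
  let N₀ := restr N (fun a => a ≠ i ∧ a ≠ f) C
    (fun a _ => hmem _ (N.ε_comm i a) (N.ε_comm f a))
    (fun τ => by rw [← hπ]; exact hmemψ _ (hcπ τ))
    (fun a b ha hb hab => hmem _ (N.ε_other a b i hab ha.1.symm hb.1.symm)
      (N.ε_other a b f hab ha.2.symm hb.2.symm))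
    (fun a b ha hb hab => hmem _ (ε_comm_lam N hab ha.1.symm hb.1.symm)
      (ε_comm_lam N hab ha.2.symm hb.2.symm))
  have e1 : ∀ (τ : Perm {a // a ≠ i ∧ a ≠ f}) (x : V) (hx : (w.ε i * w.ε f) • x = x),
      (N₀.map A).π τ (q ⟨x, hx⟩) = q ⟨w.π (Perm.ofSubtype τ) • x, hfix _ (hcπ τ) x hx⟩ := by
    intro τ x hx
    rw [← hAq _ (hmemψ _ (hcπ τ)) (hcπ τ) x hx]
    have : N₀.π τ = ⟨ψ (w.π (Perm.ofSubtype τ)), hmemψ _ (hcπ τ)⟩ := Subtype.ext (hπ _).symm
    rw [← this]
    rfl
  have e2 : ∀ (a b : {a // a ≠ i ∧ a ≠ f}) (x : V) (hx : (w.ε i * w.ε f) • x = x),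
      (N₀.map A).ε a ((N₀.map A).ε b (q ⟨x, hx⟩)) =
        q ⟨(w.ε a * w.ε b) • x, hfix _ (hcε a b) x hx⟩ := by
    intro a b x hx
    rw [← hAq _ (hmemψ _ (hcε a b)) (hcε a b) x hx]
    have : N₀.ε a * N₀.ε b = ⟨ψ (w.ε a * w.ε b), hmemψ _ (hcε a b)⟩ :=
      Subtype.ext (by
        show N.ε a * N.ε b = ψ (w.ε a * w.ε b)
        rw [map_mul, hε, hε])
    rw [← this, map_mul]
    rfl
  have hcard : Fintype.card ι ≤ Fintype.card {a // a ≠ i ∧ a ≠ f} + 2 := by
    rw [Fintype.card_subtype]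
    have h1 : (Finset.univ : Finset ι) ⊆
        (Finset.univ.filter fun a => a ≠ i ∧ a ≠ f) ∪ {i, f} := by
      intro a _
      by_cases h : a ≠ i ∧ a ≠ f
      · simp [h]
      · have : a = i ∨ a = f := by tauto
        exact Finset.mem_union_right _ (by simpa using this)
    have h2 := Finset.card_le_card h1
    have h3 := Finset.card_union_le (Finset.univ.filter fun a => a ≠ i ∧ a ≠ f) {i, f}
    have h4 : ({i, f} : Finset ι).card ≤ 2 := Finset.card_le_two
    rw [Finset.card_univ] at h2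
    omega
  have := h3 {a // a ≠ i ∧ a ≠ f} Ω (N₀.map A) k (by omega)
    (by
      intro ω
      obtain ⟨⟨x, hx⟩, rfl⟩ := hq ω
      refine ⟨((sV x).subtype fun a => a ≠ i ∧ a ≠ f)ᶜ, ?_, fun τ hτ hf => ?_,
        fun a ha b hb => ?_⟩
      · rw [compl_compl, Finset.card_subtype]
        exact (Finset.card_filter_le _ _).trans_lt (hV.1 x)
      · rw [e1]
        congr 1
        apply Subtype.ext
        refine (hV.2.1 x).1 (Perm.ofSubtype τ) (by rw [Perm.sign_ofSubtype]; exact hτ) ?_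
        intro a ha
        by_cases hp : a ≠ i ∧ a ≠ f
        · rw [Perm.ofSubtype_apply_of_mem τ hp, hf ⟨a, hp⟩ (by simpa using ha)]
        · exact Perm.ofSubtype_apply_of_not_mem τ hp
      · rw [e2]
        congr 1
        apply Subtype.ext
        have := (hV.2.1 x).2 a (by simpa using ha) b (by simpa using hb)
        show (w.ε a * w.ε b) • x = x
        rw [mul_smul]
        exact this)
    σ hσ (q ⟨v, hv⟩)
  rw [e1] at this
  exact (hqL _ _).1 this.symm

theorem card_le_one (h1 : SConn) (h2 : STop) (h3 : SSmall) (h4 : SGr)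
    (hε : ∀ a, ψ (w.ε a) = N.ε a) (hπ : ∀ σ, ψ (w.π σ) = N.π σ) (hA : RealA π ψ o t j)
    (hB : RealB π ψ o t j) (hCr : RealC ψ o t)
    (hV : Supp (w.map (MulAction.toPermHom G V)) k sV)
    (hE : Supp (w.map (MulAction.toPermHom G E)) k sE) (hn : 5 * k + 17 ≤ Fintype.card ι) :
    ∀ h e, j h e ≠ 0 → (sE e).card ≤ 1 := by
  classical
  intro h₀ e₀ he₀
  have hC := h1 ι V E o t _ _ k sV sE (by omega) (grw (w := w) hA) hV hE hA.2.2.2.1
  have : Nonempty V := hA.2.2.1
  obtain ⟨e, he, hmax⟩ := Finset.exists_max_image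
    (Finset.univ.filter fun x => ∃ h, j h x ≠ 0) (fun x => (sE x).card)
    ⟨e₀, Finset.mem_filter.2 ⟨Finset.mem_univ _, h₀, he₀⟩⟩
  obtain ⟨h, hh⟩ := (Finset.mem_filter.1 he).2
  have hd : ∀ h x, j h x ≠ 0 → (sE x).card ≤ (sE e).card := fun h x hx =>
    hmax x (Finset.mem_filter.2 ⟨Finset.mem_univ _, h, hx⟩)
  refine (hd h₀ e₀ he₀).trans ?_
  by_contra hlt
  obtain ⟨i, hi, i₁, hi₁, hii⟩ := Finset.one_lt_card.1 (not_le.1 hlt)
  have hk := hE.1 e
  obtain ⟨f, hf⟩ : ∃ f, f ∉ sE e := by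
    by_contra hcon
    have : sE e = Finset.univ := Finset.eq_univ_iff_forall.2 fun a => by
      by_contra h0; exact hcon ⟨a, h0⟩
    rw [this, Finset.card_univ] at hk
    omega
  have sV' : ∀ x : V, sV ((w.ε i * w.ε f) • x) = sV x := fun x => by
    rw [mul_smul]; exact supp_εε hV i f x
  have sE' : ∀ x : E, sE ((w.ε i * w.ε f) • x) = sE x := fun x => by
    rw [mul_smul]; exact supp_εε hE i f x
  obtain ⟨v, hv, hgv, hL⟩ := (h4 V E o t).2.1 (MulAction.toPerm (w.ε i * w.ε f))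
    (MulAction.toPerm (w.ε i * w.ε f)) (fun v => sE e ⊆ sV v) (fun x => sE e ⊆ sE x)
    (fun x => hA.1 _ x) (fun x => hA.2.1 _ x)
    (fun v => by rw [MulAction.toPerm_apply, sV']) (fun x => by rw [MulAction.toPerm_apply, sE'])
    (fun x hx => hx.elim (fun a => a.trans (hC.1 x).1) fun a => a.trans (hC.1 x).2)
    hA.2.2.2.1
    (by
      obtain ⟨u, hu⟩ := exists_supp_sub hV (Finset.univ.erase i)
        (by rw [Finset.card_erase_of_mem (Finset.mem_univ _), Finset.card_univ]; omega)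
      exact ⟨u, fun a => Finset.notMem_erase i _ (hu (a hi))⟩)
    (by
      intro c hc hbd x
      rw [MulAction.toPerm_apply]
      obtain ⟨h', hh'⟩ := lift_rel h1 h4 hA hV hE hn (sE e) hk.le c hbd
      by_cases hx : sE e ⊆ sE x
      · rw [← hh' x hx, ← hh' _ (by rw [sE']; exact hx)]
        by_cases hx' : (sE x).card ≤ (sE e).card
        · have hs : sE e = sE x := Finset.eq_of_subset_of_card_le hx hx'
          rw [mul_smul]
          exact top1 h1 h2 h4 hε hπ hA hB hV hE hn _ hd h' x i f (by rw [hs]) (hs ▸ hi)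
            (hs ▸ hf)
        · have a1 : j h' x = 0 := by
            by_contra h0; exact hx' (hd h' x h0)
          have a2 : j h' ((w.ε i * w.ε f) • x) = 0 := by
            by_contra h0
            have := hd h' _ h0
            rw [sE'] at this
            exact hx' this
          rw [a1, a2, neg_zero]
      · have a1 : c x = 0 := by
          by_contra h0; exact hx (hc x h0)
        have a2 : c ((w.ε i * w.ε f) • x) = 0 := by
          by_contra h0
          have := hc _ h0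
          rw [sE'] at this
          exact hx this
        rw [a1, a2, neg_zero])
    (by
      refine ⟨fun x => if sE e ⊆ sE x then j h x else 0, fun h0 => hh ?_, fun x hx => ?_,
        fun v hI => ?_⟩
      · simpa using congrFun h0 e
      · by_contra h0
        exact hx (if_neg h0)
      · rw [bd_congr (c' := j h) fun x hx => by
          have : sE e ⊆ sE x := by
            rcases hx with rfl | rfl
            · exact hI.trans (hC.1 x).1
            · exact hI.trans (hC.1 x).2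
          simp [this]]
        exact bd_eq_zero_of_cyc ((hA.2.2.2.2.2.2.1 _).1 ⟨h, rfl⟩) v)
  have hkv := hV.1 v
  have h3c : 2 < (insert i (insert f (sV v)))ᶜ.card := by
    rw [Finset.card_compl]
    have a1 := Finset.card_insert_le i (insert f (sV v))
    have a2 := Finset.card_insert_le f (sV v)
    omega
  obtain ⟨b, c, c', hb, hc, hc', hbc, hbc', hcc'⟩ := Finset.two_lt_card_iff.1 h3c
  simp only [Finset.mem_compl, Finset.mem_insert, not_or] at hb hc hc'
  have hi₁' : i₁ ≠ i ∧ i₁ ≠ f := ⟨hii.symm, fun a => hf (a ▸ hi₁)⟩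
  let b' : {a // a ≠ i ∧ a ≠ f} := ⟨b, hb.1, hb.2.1⟩
  let x' : {a // a ≠ i ∧ a ≠ f} := ⟨c, hc.1, hc.2.1⟩
  let y' : {a // a ≠ i ∧ a ≠ f} := ⟨c', hc'.1, hc'.2.1⟩
  let i' : {a // a ≠ i ∧ a ≠ f} := ⟨i₁, hi₁'⟩
  have hib : i' ≠ b' := fun a => hb.2.2 (by
    have : i₁ = b := congrArg Subtype.val a
    exact this ▸ hv hi₁)
  have hxy : x' ≠ y' := fun a => hcc' (congrArg Subtype.val a)
  have hL' := hL _ (small h3 hε hπ hCr hV hn i f (swap i' b' * swap x' y')
    (by rw [Perm.sign_mul, Perm.sign_swap hib, Perm.sign_swap hxy]; simp) v hgv)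
  have hs : sV (w.π (Perm.ofSubtype (swap i' b' * swap x' y')) • v) =
      (sV v).map (Perm.ofSubtype (swap i' b' * swap x' y')).toEmbedding := hV.2.2.2.1 _ v
  rw [hs] at hL'
  obtain ⟨a, ha, hai⟩ := Finset.mem_map.1 (hL' hi₁)
  have hb1 : Perm.ofSubtype (swap i' b' * swap x' y') b = i₁ := by
    have := Perm.ofSubtype_apply_coe (swap i' b' * swap x' y') b'
    have b1 : b' ≠ x' := fun a => hbc (congrArg Subtype.val a)
    have b2 : b' ≠ y' := fun a => hbc' (congrArg Subtype.val a)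
    rw [Perm.mul_apply, swap_apply_of_ne_of_ne b1 b2, swap_apply_right] at this
    exact this
  have : a = b := (Perm.ofSubtype (swap i' b' * swap x' y')).injective (hai.trans hb1.symm)
  exact hb.2.2 (this ▸ ha)

end

theorem sy (h1 : SConn) (h2 : STop) (h3 : SSmall) (h4 : SGr) : SY := by
  intro ι G V E _ _ _ _ _ _ _ m π ψ o t j w N k sV sE hε hπ hA hB hCr hV hE hn
  have hle := card_le_one h1 h2 h3 h4 hε hπ hA hB hCr hV hE hn
  refine ⟨hle, fun h e i f he hf => ?_, fun h0 e => ?_⟩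
  · exact top1 h1 h2 h4 hε hπ hA hB hV hE hn 1 hle h e i f (by rw [he, Finset.card_singleton])
      (by rw [he]; exact Finset.mem_singleton_self i) (by rw [he]; simpa using hf)
  · have hC := h1 ι V E o t _ _ k sV sE (by omega) (grw (w := w) hA) hV hE hA.2.2.2.1
    have : Nonempty V := hA.2.2.1
    have hk := hE.1 e
    refine Finset.eq_empty_iff_forall_notMem.2 fun a ha => ?_
    refine (h4 V E o t).2.2.1 (fun v => {a} ⊆ sV v) (fun x => {a} ⊆ sE x)
      (fun x hx => hx.elim (fun a => a.trans (hC.1 x).1) fun a => a.trans (hC.1 x).2)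
      hA.2.2.2.1 ?_ hA.2.2.2.2.1 ?_ e (Finset.singleton_subset_iff.2 ha)
    · obtain ⟨u, hu⟩ := exists_supp_sub hV (Finset.univ.erase a)
        (by rw [Finset.card_erase_of_mem (Finset.mem_univ _), Finset.card_univ]; omega)
      exact ⟨u, fun h => Finset.notMem_erase a _ (hu (h (Finset.mem_singleton_self a)))⟩
    · intro c hc hbd
      obtain ⟨h', hh'⟩ := lift_rel h1 h4 hA hV hE hn {a}
        (by rw [Finset.card_singleton]; omega) c hbd
      funext x
      by_contra hx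
      have a1 := hc x hx
      have a2 := h0 h' x (by rw [hh' x a1]; exact hx)
      rw [a2] at a1
      exact Finset.notMem_empty a (a1 (Finset.mem_singleton_self a))

end Pool.Agent.MP_3ce0a0_al.H90
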