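import Pool.Agent.MP_3ce0a0_al.H79.SpecS
import Pool.Agent.MP_3ce0a0_al.H5.LI

/-
Points with small orbits: the sharp form.
-/

namespace Pool.Agent.MP_3ce0a0_al.H90

open Equiv Pool.Agent.MP_3ce0a0_al.H79 Pool.Agent.MP_3ce0a0_al.H5

namespace LI2

section
variable {ι Ω : Type} (P : WS ι (Perm Ω))

lemma eps_comm (a b : ι) (x : Ω) : P.ε a (P.ε b x) = P.ε b (P.ε a x) :=
  DFunLike.congr_fun (P.ε_comm a b) x

/-- the product of the sign changes along a multiset, at a point. -/
def tau (m : Multiset ι) (x : Ω) : Ω :=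
  @Multiset.foldr ι Ω (fun a y => P.ε a y) ⟨fun a b y => eps_comm P a b y⟩ x m

lemma tau_zero (x : Ω) : tau P 0 x = x := rfl

lemma tau_cons (a : ι) (m : Multiset ι) (x : Ω) : tau P (a ::ₘ m) x = P.ε a (tau P m x) :=
  @Multiset.foldr_cons ι Ω _ ⟨fun a b y => eps_comm P a b y⟩ _ _ _

lemma tau_add (m m' : Multiset ι) (x : Ω) : tau P (m + m') x = tau P m (tau P m' x) :=
  @Multiset.foldr_add ι Ω _ ⟨fun a b y => eps_comm P a b y⟩ _ _ _

lemma tau_comm (m m' : Multiset ι) (x : Ω) : tau P m (tau P m' x) = tau P m' (tau P m x) := by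
  rw [← tau_add, add_comm, tau_add]

lemma tau_eps (m : Multiset ι) (a : ι) (x : Ω) : tau P m (P.ε a x) = P.ε a (tau P m x) := by
  induction m using Multiset.induction_on with
  | empty => rfl
  | cons b m ih => rw [tau_cons, tau_cons, ih, eps_comm]

lemma tau_tau (m : Multiset ι) (x : Ω) : tau P m (tau P m x) = x := by
  induction m using Multiset.induction_on with
  | empty => rfl
  | cons b m ih => rw [tau_cons, tau_cons, tau_eps, eps_eps, ih]

lemma pi_tau (σ : Perm ι) (m : Multiset ι) (x : Ω) :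
    P.π σ (tau P m x) = tau P (m.map σ) (P.π σ x) := by
  induction m using Multiset.induction_on with
  | empty => rfl
  | cons b m ih => rw [Multiset.map_cons, tau_cons, tau_cons, pi_eps, ih]

lemma tau_mem {T : Finset Ω} (hT : ∀ a, ∀ x ∈ T, P.ε a x ∈ T) (m : Multiset ι) {x : Ω}
    (hx : x ∈ T) : tau P m x ∈ T := by
  induction m using Multiset.induction_on with
  | empty => exact hx
  | cons b m ih => exact tau_cons P b m x ▸ hT _ _ ih

lemma tau_even [Fintype ι] [DecidableEq ι] {m : Multiset ι} (h : ∀ a, m.count a % 2 = 0) (x : Ω) :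
    tau P m x = x := by
  have e : m = (∑ a, (m.count a / 2) • ({a} : Multiset ι)) + ∑ a, (m.count a / 2) • {a} := by
    ext u
    have := h u
    simp only [Multiset.count_add, Multiset.count_sum', Multiset.count_nsmul,
      Multiset.count_singleton, mul_ite, mul_one, mul_zero, Finset.sum_ite_eq, Finset.mem_univ,
      if_true]
    omega
  rw [e, tau_add, tau_tau]

lemma pi_mul (σ ρ : Perm ι) (x : Ω) : P.π (σ * ρ) x = P.π σ (P.π ρ x) := by
  rw [map_mul, Perm.mul_apply]

lemma pi_inv (σ : Perm ι) (x : Ω) : P.π σ⁻¹ (P.π σ x) = x := by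
  rw [← pi_mul, inv_mul_cancel, map_one, Perm.one_apply]

/-- the permutations that keep the orbit of `ω` under the sign changes. -/
def GG (ω : Ω) : Subgroup (Perm ι) where
  carrier := {σ | ∃ m, P.π σ ω = tau P m ω}
  mul_mem' := by
    rintro σ ρ ⟨m, e⟩ ⟨m', e'⟩
    exact ⟨m'.map σ + m, by rw [pi_mul, e', pi_tau, e, tau_add]⟩
  one_mem' := ⟨0, by rw [map_one]; rfl⟩
  inv_mem' := by
    rintro σ ⟨m, e⟩
    refine ⟨m.map ⇑σ⁻¹, ?_⟩
    have := pi_inv P σ ω
    rw [e, pi_tau] at this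
    rw [← tau_tau P (m.map ⇑σ⁻¹) (P.π σ⁻¹ ω), this]

lemma fix_map {ω : Ω} {σ : Perm ι} (hσ : σ ∈ GG P ω) {m : Multiset ι} (h : tau P m ω = ω) :
    tau P (m.map σ) ω = ω := by
  obtain ⟨m', e⟩ := hσ
  have := pi_tau P σ m ω
  rw [h, e, tau_comm] at this
  rw [← tau_tau P m' (tau P (m.map σ) ω), ← this, tau_tau]

end

variable {ι Ω : Type} [Fintype ι] [DecidableEq ι] (P : WS ι (Perm Ω))

lemma count (ω : Ω) (T O : Finset Ω) (h1 : ∀ σ, ∀ x ∈ T, P.π σ x ∈ T) (hO : O ⊆ T)
    (hO' : ∀ x ∈ O, ∃ m, tau P m ω = x) :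
    (Fintype.card ι).factorial * O.card ≤ Nat.card (GG P ω) * T.card := by
  classical
  rw [← Fintype.card_perm, ← Finset.card_univ, ← Finset.card_product]
  refine Finset.card_le_mul_card_image_of_maps_to (f := fun z : Perm ι × Ω => P.π z.1 z.2)
    (fun z hz => h1 _ _ (hO (Finset.mem_product.1 hz).2)) _ fun y _ => ?_
  rcases ((Finset.univ ×ˢ O).filter fun z : Perm ι × Ω => P.π z.1 z.2 = y).eq_empty_or_nonempty
    with e | ⟨z, hz⟩
  · rw [e]
    exact Nat.zero_le _
  rw [Nat.card_eq_fintype_card, Fintype.card_subtype]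
  simp only [Finset.mem_filter, Finset.mem_product, Finset.mem_univ, true_and] at hz
  refine Finset.card_le_card_of_injOn (fun w => z.1⁻¹ * w.1) (fun w hw => ?_) fun w hw w' hw' e => ?_
  · simp only [Finset.coe_filter, Finset.mem_product, Finset.mem_univ, true_and,
      Set.mem_ofPred_eq] at hw ⊢
    obtain ⟨m, e⟩ := hO' _ hw.1
    obtain ⟨m', e'⟩ := hO' _ hz.1
    have : P.π (z.1⁻¹ * w.1) w.2 = z.2 := by rw [pi_mul, hw.2, ← hz.2, pi_inv]
    rw [← e, ← e', pi_tau] at this
    exact ⟨_ + m', by rw [tau_add, ← this, tau_tau]⟩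
  · simp only [Finset.coe_filter, Finset.mem_product, Finset.mem_univ, true_and,
      Set.mem_ofPred_eq] at hw hw'
    have e1 : w.1 = w'.1 := mul_left_cancel e
    refine Prod.ext e1 ((P.π w.1).injective ?_)
    rw [hw.2, e1, hw'.2]

lemma card_le (G : Subgroup (Perm ι)) (X : Finset ι) (h : ∀ g ∈ G, ∀ x ∈ X, g x ∈ X) :
    Nat.card G ≤ X.card.factorial * Xᶜ.card.factorial := by
  have h1 : ∀ g : G, ∀ x, g.1 x ∈ X ↔ x ∈ X := fun g x =>
    ⟨fun hx => by simpa using h _ (inv_mem g.2) _ hx, h _ g.2 x⟩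
  have h2 : ∀ g : G, ∀ x, g.1 x ∈ Xᶜ ↔ x ∈ Xᶜ := fun g x => by
    rw [Finset.mem_compl, Finset.mem_compl, h1]
  have := Nat.card_le_card_of_injective
    (fun g : G => (g.1.subtypePerm (h1 g), g.1.subtypePerm (h2 g))) fun g g' e => by
      rw [Prod.mk.injEq] at e
      refine Subtype.ext (Perm.ext fun x => ?_)
      by_cases hx : x ∈ X
      · exact congrArg Subtype.val (DFunLike.congr_fun e.1 ⟨x, hx⟩)
      · exact congrArg Subtype.val (DFunLike.congr_fun e.2 ⟨x, Finset.mem_compl.2 hx⟩)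
  simpa only [Nat.card_eq_fintype_card, Fintype.card_prod, Fintype.card_perm, Fintype.card_coe]
    using this

lemma two_pow_le (s : ℕ) : ∀ n, 2 * s ≤ n → 2 ^ s ≤ n.choose s := by
  induction s with
  | zero => simp
  | succ s ih =>
    intro n hn
    obtain ⟨n, rfl⟩ : ∃ m, n = m + 1 + 1 := ⟨n - 2, by omega⟩
    have h1 := ih n (by omega)
    have h2 := Nat.choose_le_succ n s
    rw [Nat.choose_succ_succ, Nat.choose_succ_succ n s, pow_succ]
    simp only [Nat.succ_eq_add_one] at h2 ⊢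
    omega

lemma pair {ω : Ω} {X : Finset ι} (hX : 5 ≤ X.card)
    (hG : ∀ σ : Perm ι, Perm.sign σ = 1 → σ ∈ Sup X → σ ∈ GG P ω) {m : Multiset ι}
    (hm : tau P m ω = ω) {a b : ι} (ha : a ∈ X) (hb : b ∈ X) (h1 : m.count a % 2 = 1)
    (h0 : m.count b % 2 = 0) : P.ε a (P.ε b ω) = ω := by
  have hab : a ≠ b := fun e => by rw [e] at h1; omega
  obtain ⟨c, hc, d, hd, hcd, e⟩ := Finset.exists_ne_map_eq_of_card_lt_of_maps_to
    (s := (X.erase a).erase b) (t := Finset.range 2) (f := fun u => m.count u % 2) (by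
      rw [Finset.card_erase_of_mem (Finset.mem_erase.2 ⟨hab.symm, hb⟩),
        Finset.card_erase_of_mem ha, Finset.card_range]
      omega) fun u _ => by simpa using Nat.mod_lt _ two_pos
  simp only [Finset.mem_erase] at hc hd e
  obtain ⟨c1, c2, c3⟩ := hc
  obtain ⟨d1, d2, d3⟩ := hd
  have hσ := hG (swap a b * swap c d) (by simp [hab, hcd])
    (mul_mem (Sup.swap ha hb) (Sup.swap c3 d3))
  have hc : ∀ u v, (swap a b * swap c d) u = v → (m.map (swap a b * swap c d)).count v = m.count u :=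
    fun u v h => h ▸ Multiset.count_map_eq_count' _ _ (swap a b * swap c d).injective u
  have := tau_even P (m := a ::ₘ b ::ₘ (m.map (swap a b * swap c d) + m)) (fun u => ?_) ω
  · rwa [tau_cons, tau_cons, tau_add, hm, fix_map P hσ hm] at this
  simp only [Multiset.count_cons, Multiset.count_add]
  by_cases ua : u = a
  · rw [ua, hc b a (by simp [swap_apply_of_ne_of_ne c1.symm d1.symm]), if_neg hab, if_pos rfl]
    omega
  by_cases ub : u = b
  · rw [ub, hc a b (by simp [swap_apply_of_ne_of_ne c2.symm d2.symm]), if_neg hab.symm, if_pos rfl]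
    omega
  rw [if_neg ua, if_neg ub]
  by_cases uc : u = c
  · rw [uc, hc d c (by simp [swap_apply_of_ne_of_ne c2 c1])]
    omega
  by_cases ud : u = d
  · rw [ud, hc c d (by simp [swap_apply_of_ne_of_ne d2 d1])]
    omega
  rw [hc u u (by simp [swap_apply_of_ne_of_ne uc ud, swap_apply_of_ne_of_ne ua ub])]
  omega

lemma pairs {ω : Ω} {X : Finset ι} (hX : 5 ≤ X.card)
    (hG : ∀ σ : Perm ι, Perm.sign σ = 1 → σ ∈ Sup X → σ ∈ GG P ω) {a b : ι} (ha : a ∈ X)
    (hab : a ≠ b) (h : P.ε a (P.ε b ω) = ω) :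
    ∀ c ∈ X, ∀ d ∈ X, P.ε c (P.ε d ω) = ω := by
  have k : ∀ c ∈ X, P.ε c (P.ε b ω) = ω := by
    intro c hc
    by_cases e : c = a
    · rwa [e]
    by_cases e' : c = b
    · rw [e', eps_eps]
    obtain ⟨z, hz, hz'⟩ := Finset.exists_mem_notMem_of_card_lt_card
      (show ({a, b, c} : Finset ι).card < X.card from Finset.card_le_three.trans_lt (by omega))
    simp only [Finset.mem_insert, Finset.mem_singleton, not_or] at hz'
    have := fix_map P (hG (swap a z * swap a c) (by simp [Ne.symm hz'.1, Ne.symm e])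
      (mul_mem (Sup.swap ha hz) (Sup.swap ha hc))) (m := a ::ₘ b ::ₘ 0) (by
        rw [tau_cons, tau_cons, tau_zero, h])
    rw [Multiset.map_cons, Multiset.map_cons, Multiset.map_zero, tau_cons, tau_cons, tau_zero] at this
    simpa [swap_apply_of_ne_of_ne e (Ne.symm hz'.2.2), swap_apply_of_ne_of_ne hab.symm (Ne.symm e'),
      swap_apply_of_ne_of_ne hab.symm (Ne.symm hz'.2.1)] using this
  intro c hc d hd
  conv_lhs => rw [← k d hd, eps_eps, k c hc]

omit [Fintype ι] [DecidableEq ι] in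
lemma square {ω : Ω} {X : Finset ι} (h : ∀ c ∈ X, ∀ d ∈ X, P.ε c (P.ε d ω) = ω) {ρ : Perm ι}
    (h1 : ρ ∈ Sup X) (h2 : ρ ∈ GG P ω) : P.π (ρ * ρ) ω = ω := by
  obtain ⟨m, e⟩ := h2
  rw [pi_mul, e, pi_tau, e]
  clear e
  induction m using Multiset.induction_on with
  | empty => rfl
  | cons b m ih =>
    rw [Multiset.map_cons, tau_cons, tau_cons, tau_eps, ih]
    by_cases hb : b ∈ X
    · exact h _ (Sup.app h1 hb) b hb
    · rw [h1 b hb, eps_eps]

end LI2

open LI2 in
theorem sli2 (h : SGL) : SLI2 := by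
  classical
  intro ι Ω _ _ P ω T k hω h1 h2 hT hk
  have hT0 : 0 < T.card := Finset.card_pos.2 ⟨ω, hω⟩
  have hk0 : 1 ≤ k := by
    rcases k with _ | k
    · rw [Nat.choose_zero_right] at hT
      omega
    · omega
  obtain ⟨O, hO⟩ : ∃ O : Finset Ω, O = T.filter fun x => ∃ m, tau P m ω = x := ⟨_, rfl⟩
  have hO1 : ∀ m, tau P m ω ∈ O := fun m =>
    hO ▸ Finset.mem_filter.2 ⟨tau_mem P h2 m hω, m, rfl⟩
  have hO0 : 0 < O.card := Finset.card_pos.2 ⟨_, hO1 0⟩
  have c1 := count P ω T O h1 (hO ▸ Finset.filter_subset _ _) fun x hx => by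
    rw [hO] at hx
    exact (Finset.mem_filter.1 hx).2
  obtain ⟨X, hX, hX1, hX2⟩ := h ι (GG P ω) k hk0 hk (by
    have e := Nat.choose_mul_factorial_mul_factorial (show k ≤ Fintype.card ι by omega)
    have p : 0 < k.factorial * (Fintype.card ι - k).factorial := by positivity
    refine lt_of_mul_lt_mul_right (a := T.card) (lt_of_lt_of_le ?_
      ((Nat.le_mul_of_pos_right _ hO0).trans c1)) (Nat.zero_le _)
    rw [← e, mul_assoc ((Fintype.card ι).choose k), mul_assoc 2]
    nlinarith)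
  have cX := Finset.card_add_card_compl X
  have c2 : O.card < 2 ^ (X.card - 1) := by
    have e := Nat.choose_mul_factorial_mul_factorial (show Xᶜ.card ≤ Fintype.card ι by omega)
    rw [show Fintype.card ι - Xᶜ.card = X.card by omega] at e
    have p : 0 < X.card.factorial * Xᶜ.card.factorial := by positivity
    have c3 := c1.trans (Nat.mul_le_mul_right _ (card_le _ X hX1))
    have c4 : (Fintype.card ι).choose Xᶜ.card * O.card ≤ T.card := by
      refine le_of_mul_le_mul_left ?_ p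
      rw [← e] at c3
      exact le_of_eq_of_le (by ring) c3
    have c5 := Nat.mul_le_mul_right O.card (two_pow_le Xᶜ.card (Fintype.card ι) (by omega))
    have c6 := Nat.choose_le_two_pow (Fintype.card ι) k
    rw [show Fintype.card ι = Xᶜ.card + (X.card - 1) + 1 by omega, pow_succ, pow_add] at c6
    rw [show Xᶜ.card + (X.card - 1) + 1 = Fintype.card ι by omega] at c6
    exact lt_of_mul_lt_mul_left (a := 2 ^ Xᶜ.card) (by omega) (Nat.zero_le _)
  have h5 : 5 ≤ X.card := by omega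
  obtain ⟨b, hb⟩ := Finset.card_pos.1 (show 0 < X.card by omega)
  obtain ⟨W, hW, W', hW', hne, e⟩ := Finset.exists_ne_map_eq_of_card_lt_of_maps_to
    (s := (X.erase b).powerset) (t := O) (f := fun W => tau P W.val ω) (by
      rwa [Finset.card_powerset, Finset.card_erase_of_mem hb]) fun W _ => hO1 _
  rw [Finset.mem_powerset] at hW hW'
  have hm : tau P (W.val + W'.val) ω = ω := by
    rw [tau_add, ← e, tau_tau]
  have hc : ∀ u, (W.val + W'.val).count u = (if u ∈ W then 1 else 0) + if u ∈ W' then 1 else 0 :=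
    fun u => by
      rw [Multiset.count_add, Multiset.count_eq_of_nodup W.nodup,
        Multiset.count_eq_of_nodup W'.nodup]
      rfl
  obtain ⟨a, ha⟩ : ∃ a, ¬(a ∈ W ↔ a ∈ W') := by
    by_contra hn
    exact hne (Finset.ext (by simpa using hn))
  have ha' : a ∈ X.erase b := by
    by_cases e : a ∈ W
    · exact hW e
    · exact hW' (by tauto)
  rw [Finset.mem_erase] at ha'
  have h6 := pairs P h5 hX2 ha'.2 ha'.1 (pair P h5 hX2 hm ha'.2 hb (by
    rw [hc]
    split_ifs <;> tauto) (by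
    rw [hc, if_neg fun e => by simpa using hW e, if_neg fun e => by simpa using hW' e]))
  refine ⟨X, hX, fun σ hs hσ => gen (Stab P ω) ha'.1 (fun c hc hca => ?_) σ hσ hs, h6⟩
  by_cases e : c = b
  · simp [e]
  have hS := mul_mem (Sup.swap ha'.2 hb) (Sup.swap ha'.2 hc)
  have h7 : _ ∈ Stab P ω := square P h6 hS (hX2 _ (by simp [ha'.1, hca.symm]) hS)
  have t := (Perm.isThreeCycle_swap_mul_swap_same ha'.1 hca.symm (Ne.symm e)).orderOf
  have h8 := mul_mem h7 h7
  rwa [← mul_assoc, ← pow_three', ← t, pow_orderOf_eq_one, one_mul] at h8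

end Pool.Agent.MP_3ce0a0_al.H90
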