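import Pool.Agent.MP_3ce0a0_al.H79.XS

/-
The rank of the kernel of the homology modulo two, and the embedding of outer automorphism groups.
-/

namespace Pool.Agent.MP_3ce0a0_al.H79.X

open Equiv FreeGroup Module Finset Pool.Agent.MP_3ce0a0_al.H62.Inst

namespace EmbB

section count
variable {ι Q : Type} [Group Q] (p : FreeGroup ι →* Q) (s : Q → FreeGroup ι)

/-- functions that are additive under right multiplication by the kernel. -/
def W (p : FreeGroup ι →* Q) : Type :=
  {f : FreeGroup ι → ZMod 2 // ∀ w v, p v = 1 → f (w * v) = f w + (f v - f 1)}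

/-- one step of the skew product. -/
def stepP (c : Q × ι → ZMod 2) (i : ι) : Perm (Q × ZMod 2) where
  toFun x := (p (of i) * x.1, x.2 + c (x.1, i))
  invFun x := ((p (of i))⁻¹ * x.1, x.2 - c ((p (of i))⁻¹ * x.1, i))
  left_inv x := by simp
  right_inv x := by simp

lemma skew (c : Q × ι → ZMod 2) (w : FreeGroup ι) : ∀ q a,
    lift (stepP p c) w (q, a) = (p w * q, a + (lift (stepP p c) w (q, 0)).2) := by
  induction w using FreeGroup.induction_on with
  | C1 => intro q a; simp
  | of i => intro q a; simp [stepP]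
  | inv_of i _ =>
    intro q a
    simp only [_root_.map_inv, lift_apply_of]
    change ((p (of i))⁻¹ * q, a - c ((p (of i))⁻¹ * q, i)) =
      ((p (of i))⁻¹ * q, a + (0 - c ((p (of i))⁻¹ * q, i)))
    rw [zero_sub, sub_eq_add_neg]
  | mul x y hx hy =>
    intro q a
    simp only [_root_.map_mul, Perm.mul_apply]
    rw [hy q a, hy q 0, hx, hx _ (0 + _)]
    simp only [mul_assoc, zero_add, add_assoc]

variable {p s}

lemma decomp (hs : ∀ q, p (s q) = q) (w : FreeGroup ι) : p ((s (p w))⁻¹ * w) = 1 := by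
  simp [hs]

lemma bij1 (hs : ∀ q, p (s q) = q) : Function.Bijective fun f : W p =>
    ((fun x : Q × ι => f.1 (of x.2 * s x.1) - f.1 (s x.1), f.1 1) :
      (Q × ι → ZMod 2) × ZMod 2) := by
  constructor
  · intro f g h
    have h1 : ∀ q i, f.1 (of i * s q) - f.1 (s q) = g.1 (of i * s q) - g.1 (s q) := fun q i =>
      congrFun (congrArg Prod.fst h) (q, i)
    have h0 : f.1 1 = g.1 1 := congrArg Prod.snd h
    have h2 : ∀ i w, f.1 (of i * w) - g.1 (of i * w) = f.1 w - g.1 w := by
      intro i w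
      have e : w = s (p w) * ((s (p w))⁻¹ * w) := by simp
      have a1 := f.2 (s (p w)) _ (decomp hs w)
      have a2 := f.2 (of i * s (p w)) _ (decomp hs w)
      have a3 := g.2 (s (p w)) _ (decomp hs w)
      have a4 := g.2 (of i * s (p w)) _ (decomp hs w)
      rw [← e] at a1 a3
      rw [mul_assoc, ← e] at a2 a4
      linear_combination a2 - a1 - a4 + a3 + h1 (p w) i
    have h3 : ∀ x w, f.1 (x * w) - g.1 (x * w) = f.1 w - g.1 w := by
      intro x
      induction x using FreeGroup.induction_on with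
      | C1 => intro w; simp
      | of i => exact h2 i
      | inv_of i _ =>
        intro w
        have := h2 i ((of i)⁻¹ * w)
        rw [mul_inv_cancel_left] at this
        exact this.symm
      | mul x y hx hy => intro w; rw [mul_assoc, hx, hy]
    refine Subtype.ext (funext fun w => ?_)
    have := h3 w 1
    rw [mul_one, h0, sub_self] at this
    exact sub_eq_zero.1 this
  · rintro ⟨c, a⟩
    refine ⟨⟨fun w => a + (lift (stepP p c) w (1, 0)).2, fun w v hv => ?_⟩, ?_⟩
    · simp only [_root_.map_mul, Perm.mul_apply, _root_.map_one, Perm.one_apply]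
      rw [skew p c v 1 0, hv, mul_one, skew p c w 1 (0 + _)]
      ring
    · refine Prod.ext (funext fun x => ?_) (by simp)
      simp only [_root_.map_mul, Perm.mul_apply, lift_apply_of]
      rw [skew p c (s x.1) 1 0, hs, mul_one]
      simp [stepP]

lemma bij2 (hs : ∀ q, p (s q) = q) : Function.Bijective fun f : W p =>
    ((fun b => f.1 (IsFreeGroup.of b : p.ker) - f.1 1, fun q => f.1 (s q)) :
      (IsFreeGroup.Generators p.ker → ZMod 2) × (Q → ZMod 2)) := by
  let hm : W p → (p.ker →* Multiplicative (ZMod 2)) := fun f => MonoidHom.mk'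
    (fun v => Multiplicative.ofAdd (f.1 v - f.1 1)) fun u v => by
      rw [← ofAdd_add, Subgroup.coe_mul, f.2 u v v.2]
      congr 1
      ring
  constructor
  · intro f g h
    have h1 : hm f = hm g := IsFreeGroup.ext_hom fun b =>
      congrArg Multiplicative.ofAdd (congrFun (congrArg Prod.fst h) b)
    have h0 : ∀ q, f.1 (s q) = g.1 (s q) := congrFun (congrArg Prod.snd h)
    refine Subtype.ext (funext fun w => ?_)
    have e : w = s (p w) * ((s (p w))⁻¹ * w) := by simp
    have a1 := f.2 (s (p w)) _ (decomp hs w)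
    have a3 := g.2 (s (p w)) _ (decomp hs w)
    rw [← e] at a1 a3
    have h2 : f.1 ((s (p w))⁻¹ * w) - f.1 1 = g.1 ((s (p w))⁻¹ * w) - g.1 1 :=
      Multiplicative.ofAdd.injective (DFunLike.congr_fun h1 ⟨_, decomp hs w⟩)
    rw [a1, a3, h0, h2]
  · rintro ⟨c, g⟩
    let h : p.ker →* Multiplicative (ZMod 2) :=
      IsFreeGroup.lift fun b => Multiplicative.ofAdd (c b)
    have key : ∀ w v (hv : p v = 1), g (p (w * v)) +
        (h ⟨(s (p (w * v)))⁻¹ * (w * v), decomp hs _⟩).toAdd =
        g (p w) + (h ⟨(s (p w))⁻¹ * w, decomp hs _⟩).toAdd + (h ⟨v, hv⟩).toAdd := by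
      intro w v hv
      have e : p (w * v) = p w := by rw [_root_.map_mul, hv, mul_one]
      have e2 : (⟨(s (p (w * v)))⁻¹ * (w * v), decomp hs _⟩ : p.ker) =
          ⟨(s (p w))⁻¹ * w, decomp hs _⟩ * ⟨v, hv⟩ := Subtype.ext (by
        change (s (p (w * v)))⁻¹ * (w * v) = (s (p w))⁻¹ * w * v
        rw [e, mul_assoc])
      rw [e2, h.map_mul, toAdd_mul, add_assoc]
      exact congrArg (fun t => g t + _) e
    have key1 : ∀ v (hv : p v = 1), g (p v) + (h ⟨(s (p v))⁻¹ * v, decomp hs _⟩).toAdd -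
        (g (p 1) + (h ⟨(s (p 1))⁻¹ * 1, decomp hs _⟩).toAdd) = (h ⟨v, hv⟩).toAdd := by
      intro v hv
      have := key 1 v hv
      simp only [one_mul] at this
      rw [this]
      ring
    refine ⟨⟨fun w => g (p w) + (h ⟨(s (p w))⁻¹ * w, decomp hs w⟩).toAdd, fun w v hv => ?_⟩, ?_⟩
    · exact (key w v hv).trans (congrArg _ (key1 v hv).symm)
    · refine Prod.ext (funext fun b => ?_) (funext fun q => ?_)
      · exact (key1 _ (IsFreeGroup.of b : p.ker).2).trans (by simp [h])
      · have e : (⟨(s (p (s q)))⁻¹ * s q, decomp hs _⟩ : p.ker) = 1 :=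
          Subtype.ext (by simp [hs])
        change g (p (s q)) + (h ⟨(s (p (s q)))⁻¹ * s q, decomp hs _⟩).toAdd = g q
        rw [e, _root_.map_one, toAdd_one, add_zero, hs]

/-- the index formula -/
lemma rank_ker [Finite ι] [Finite Q] (hp : Function.Surjective p) :
    Finite (IsFreeGroup.Generators p.ker) ∧
      Nat.card (IsFreeGroup.Generators p.ker) + Nat.card Q = Nat.card Q * Nat.card ι + 1 := by
  classical
  choose s hs using hp
  have e := (Equiv.ofBijective _ (bij2 hs)).symm.trans (Equiv.ofBijective _ (bij1 hs))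
  have hf : Finite ((IsFreeGroup.Generators p.ker → ZMod 2) × (Q → ZMod 2)) :=
    Finite.of_equiv _ e.symm
  have hB : Finite (IsFreeGroup.Generators p.ker) :=
    Finite.of_injective (fun b => ((Pi.single b 1, 0) :
      (IsFreeGroup.Generators p.ker → ZMod 2) × (Q → ZMod 2))) fun b b' h => by
        have h1 := congrFun (congrArg Prod.fst h) b
        by_contra hne
        simp [Pi.single_eq_of_ne hne] at h1
  refine ⟨hB, ?_⟩
  have hc := Nat.card_congr e
  simp only [Nat.card_prod, Nat.card_fun, Nat.card_zmod] at hc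
  rw [← pow_add, ← pow_succ] at hc
  exact Nat.pow_right_injective le_rfl hc

end count

variable {ι : Type} [DecidableEq ι]

/-- the homology modulo two. -/
def pp (ι : Type) [DecidableEq ι] : FreeGroup ι →* Multiplicative (ι → ZMod 2) :=
  lift fun i => Multiplicative.ofAdd (Pi.single i 1 : ι → ZMod 2)

lemma two (x : ZMod 2) : x = 0 ∨ x = 1 := by
  revert x
  decide

lemma pp_surj [Fintype ι] : Function.Surjective (pp ι) := by
  intro y
  have h : ∀ v : ι → ZMod 2, Multiplicative.ofAdd v ∈ (pp ι).range := by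
    intro v
    rw [← Finset.univ_sum_single v, ofAdd_sum]
    refine Subgroup.prod_mem _ fun i _ => ?_
    rcases two (v i) with h | h
    · rw [h, Pi.single_zero]
      exact one_mem _
    · rw [h]
      exact ⟨of i, by simp [pp]⟩
  exact h y.toAdd

lemma le_ker [Fintype ι] (g : FreeGroup ι →* Multiplicative (ι → ZMod 2)) {x : FreeGroup ι}
    (hx : x ∈ N2 ι) : g x = 1 := by
  let L : (ι → ZMod 2) →ₗ[ZMod 2] (ι → ZMod 2) :=
    (Pi.basisFun (ZMod 2) ι).constr (ZMod 2) fun i => (g (of i)).toAdd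
  have h : g = (AddMonoidHom.toMultiplicative L.toAddMonoidHom).comp (pp ι) :=
    FreeGroup.ext_hom _ _ fun i => by
      have h1 : L (Pi.single i 1) = (g (of i)).toAdd := by
        rw [← Pi.basisFun_apply (ZMod 2) ι i]
        exact Basis.constr_basis _ _ _ _
      simp [pp, h1]
  rw [h, MonoidHom.comp_apply, show pp ι x = 1 from hx, _root_.map_one]

lemma map_mem [Fintype ι] (α : A ι) {x : FreeGroup ι} (hx : x ∈ N2 ι) : α x ∈ N2 ι :=
  le_ker ((pp ι).comp α.toMonoidHom) hx

lemma sq_mem (x : FreeGroup ι) : x ^ 2 ∈ N2 ι := by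
  change pp ι (x ^ 2) = 1
  rw [map_pow]
  refine Multiplicative.toAdd.injective (funext fun i => ?_)
  rw [toAdd_pow, toAdd_one, Pi.smul_apply, Pi.zero_apply]
  rcases two ((pp ι x).toAdd i) with h | h <;> rw [h] <;> decide

/-- restriction to the characteristic subgroup. -/
def res (ι : Type) [DecidableEq ι] [Fintype ι] : A ι →* MulAut (N2 ι) :=
  MonoidHom.mk' (fun α =>
    { toFun := fun x => ⟨α x, map_mem α x.2⟩
      invFun := fun x => ⟨α⁻¹ x, map_mem α⁻¹ x.2⟩
      left_inv := fun x => Subtype.ext (by simp)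
      right_inv := fun x => Subtype.ext (by simp)
      map_mul' := fun x y => Subtype.ext (by simp) }) fun _ _ => rfl

lemma res_inj [Fintype ι] : Function.Injective (res ι) := by
  intro α β h
  refine MulEquiv.ext fun x => ?_
  have h1 : α (x ^ 2) = β (x ^ 2) :=
    congrArg (fun φ : MulAut (N2 ι) => (φ ⟨x ^ 2, sq_mem x⟩ : FreeGroup ι)) h
  rw [map_pow, map_pow] at h1
  exact IsMulTorsionFree.pow_left_injective two_ne_zero h1

lemma res_conj [Fintype ι] (v : N2 ι) : res ι (MulAut.conj (v : FreeGroup ι)) = MulAut.conj v :=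
  MulEquiv.ext fun _ => Subtype.ext rfl

end EmbB

theorem sembB : SEmbB := by
  intro n hn
  obtain ⟨hB, hc⟩ := EmbB.rank_ker (EmbB.pp_surj (ι := Fin n))
  have hQ : Nat.card (Multiplicative (Fin n → ZMod 2)) = 2 ^ n := by
    rw [Nat.card_congr Multiplicative.toAdd]
    simp
  rw [hQ, Nat.card_eq_fintype_card (α := Fin n), Fintype.card_fin] at hc
  have hc' : Nat.card (IsFreeGroup.Generators (EmbB.pp (Fin n)).ker) = (n - 1) * 2 ^ n + 1 := by
    obtain ⟨k, rfl⟩ := Nat.exists_eq_add_of_le' hn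
    rw [Nat.add_sub_cancel]
    nlinarith
  exact ⟨(IsFreeGroup.toFreeGroup (EmbB.pp (Fin n)).ker).trans
    (FreeGroup.freeGroupCongr (Finite.equivFinOfCardEq hc'))⟩

theorem semb (h1 : SEmbA) (h2 : SEmbB) : SEmb := by
  intro n hn he
  obtain ⟨E, hE1, hE2⟩ := h1 (Fin n) (by simpa using he)
  obtain ⟨e⟩ := h2 n (by omega)
  let ψ : E →* Out (FG ((n - 1) * 2 ^ n + 1)) := (QuotientGroup.mk' _).comp
    ((MulAut.congr e).toMonoidHom.comp ((EmbB.res (Fin n)).comp E.subtype))
  let π : E →* Out (FG n) := (QuotientGroup.mk' _).comp E.subtype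
  have hc : ∀ v : N2 (Fin n), MulAut.congr e (MulAut.conj v) = MulAut.conj (e v) := fun v =>
    MulEquiv.ext fun x => by simp [MulAut.congr]
  have hπ : Function.Surjective π := by
    intro y
    obtain ⟨α, rfl⟩ := QuotientGroup.mk'_surjective _ y
    obtain ⟨x, hx⟩ := hE1 α
    refine ⟨⟨_, hx⟩, ?_⟩
    change QuotientGroup.mk' _ (MulAut.conj x * α) = _
    rw [_root_.map_mul, show QuotientGroup.mk' (Inn (FG n)) (MulAut.conj x) = 1 from
      (QuotientGroup.eq_one_iff _).2 ⟨x, rfl⟩, one_mul]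
  have hk : π.ker = ψ.ker := by
    ext α
    rw [MonoidHom.mem_ker, MonoidHom.mem_ker]
    refine ((QuotientGroup.eq_one_iff _).trans ?_).trans (QuotientGroup.eq_one_iff _).symm
    constructor
    · rintro ⟨x, hx⟩
      have hx' : MulAut.conj x = α.1 := hx
      have hxN : x ∈ N2 (Fin n) := (hE2 x).1 (hx' ▸ α.2)
      refine ⟨e ⟨x, hxN⟩, ?_⟩
      change _ = MulAut.congr e (EmbB.res (Fin n) α.1)
      rw [← hx', ← hc, ← EmbB.res_conj]
    · rintro ⟨y, hy⟩
      have hy' : MulAut.conj y = MulAut.congr e (EmbB.res (Fin n) α.1) := hy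
      rw [← e.apply_symm_apply y, ← hc, ← EmbB.res_conj] at hy'
      exact ⟨_, EmbB.res_inj ((MulAut.congr e).injective hy')⟩
  let j := (QuotientGroup.quotientKerEquivOfSurjective π hπ).symm.trans
    (QuotientGroup.quotientMulEquivOfEq hk)
  exact ⟨(QuotientGroup.kerLift ψ).comp j.toMonoidHom,
    (QuotientGroup.kerLift_injective ψ).comp j.injective⟩

end Pool.Agent.MP_3ce0a0_al.H79.X
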