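import Pool.Agent.MP_3ce0a0_al.H79.SpecN

/-
Only edges with small support carry cycles: general lemmas.
-/

namespace Pool.Agent.MP_3ce0a0_al.H90

open Pool.Agent.MP_3ce0a0_al.H79 Equiv

theorem lnk_symm {V E : Type} {o t : E → V} {P : E → Prop} {u v : V} (h : Lnk o t P u v) :
    Lnk o t P v u := by
  unfold Lnk at h ⊢
  induction h with
  | refl => exact Relation.ReflTransGen.refl
  | tail _ hbc ih =>
    obtain ⟨e, he, h⟩ := hbc
    exact Relation.ReflTransGen.head ⟨e, he, h.symm⟩ ih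

theorem lnk_mono {V E : Type} {o t : E → V} {P Q : E → Prop} (hPQ : ∀ e, P e → Q e) {u v : V}
    (h : Lnk o t P u v) : Lnk o t Q u v := by
  unfold Lnk at h ⊢
  induction h with
  | refl => exact Relation.ReflTransGen.refl
  | tail _ hbc ih =>
    obtain ⟨e, he, h⟩ := hbc
    exact Relation.ReflTransGen.tail ih ⟨e, hPQ e he, h⟩

theorem lnk_trans {V E : Type} {o t : E → V} {P : E → Prop} {u v x : V} (h : Lnk o t P u v)
    (h' : Lnk o t P v x) : Lnk o t P u x := Relation.ReflTransGen.trans h h'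

section
variable {ι Ω : Type} [Fintype ι] [DecidableEq ι] {P : WS ι (Perm Ω)}

theorem fx_mono {ω : Ω} {X Y : Finset ι} (h : Fx P ω X) (hY : Y ⊆ X) : Fx P ω Y :=
  ⟨fun σ hσ hf => h.1 σ hσ fun a ha => hf a fun ha' => ha (hY ha'),
    fun a ha b hb => h.2 a (hY ha) b (hY hb)⟩

theorem fx_iff {k : ℕ} {s : Ω → Finset ι} (hs : Supp P k s) {S : Finset ι}
    (hS : k + 3 ≤ Sᶜ.card) (ω : Ω) : Fx P ω Sᶜ ↔ s ω ⊆ S := by
  constructor
  · intro h a ha
    by_contra ha'
    exact Finset.disjoint_left.1 (hs.2.2.1 ω _ hS h) ha (Finset.mem_compl.2 ha')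
  · intro h
    exact fx_mono (hs.2.1 ω) (Finset.compl_subset_compl.2 h)

omit [Fintype ι] [DecidableEq ι] in
theorem exists_perm_sub (T S : Finset ι) (h : T.card ≤ S.card) :
    ∃ σ : Perm ι, T.map σ.toEmbedding ⊆ S := by
  obtain ⟨S', hS', hc⟩ := Finset.exists_subset_card_eq h
  obtain ⟨σ, hσ⟩ := Perm.exists_extending_pair
    (fun x : T => (x : ι)) (fun x : T => ((T.equivOfCardEq hc.symm) x : ι))
    Subtype.val_injective (Subtype.val_injective.comp (T.equivOfCardEq hc.symm).injective)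
  refine ⟨σ, fun b hb => ?_⟩
  obtain ⟨a, ha, rfl⟩ := Finset.mem_map.1 hb
  apply hS'
  have := hσ ⟨a, ha⟩
  simp only [Equiv.coe_toEmbedding] at this ⊢
  rw [this]
  exact ((T.equivOfCardEq hc.symm) ⟨a, ha⟩).2

theorem exists_supp_sub {k : ℕ} {s : Ω → Finset ι} (hs : Supp P k s) [Nonempty Ω]
    (S : Finset ι) (hS : k ≤ S.card) : ∃ ω, s ω ⊆ S := by
  obtain ⟨ω⟩ := ‹Nonempty Ω›
  obtain ⟨σ, hσ⟩ := exists_perm_sub (s ω) S ((hs.1 ω).le.trans hS)
  exact ⟨P.π σ ω, by rw [hs.2.2.2.1]; exact hσ⟩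

end

section
variable {ι V E : Type} [Fintype ι] [DecidableEq ι] {o t : E → V} {PV : WS ι (Perm V)} {k : ℕ}
  {sV : V → Finset ι} {sE : E → Finset ι}

/-- vertices whose support misses a point of `I` are linked avoiding the edges over `I`. -/
theorem link_avoid [Nonempty V] (hV : Supp PV k sV)
    (hC : ∀ S : Finset ι, 3 * k + 2 ≤ S.card → ∀ u v, sV u ⊆ S → sV v ⊆ S →
      Lnk o t (fun e => sE e ⊆ S) u v)
    (S I : Finset ι) (hS : 3 * k + 3 ≤ S.card) (hI : I.card ≤ k) (u v : V) (hu : sV u ⊆ S)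
    (hu' : ¬ I ⊆ sV u) (hv : sV v ⊆ S) (hv' : ¬ I ⊆ sV v) :
    Lnk o t (fun e => sE e ⊆ S ∧ ¬ I ⊆ sE e) u v := by
  have h1 : k ≤ (S \ I).card := by
    have := Finset.le_card_sdiff I S
    omega
  obtain ⟨u₀, hu₀⟩ := exists_supp_sub hV (S \ I) h1
  have key : ∀ x, sV x ⊆ S → ¬ I ⊆ sV x → Lnk o t (fun e => sE e ⊆ S ∧ ¬ I ⊆ sE e) x u₀ := by
    intro x hx hx'
    obtain ⟨i, hi, hix⟩ := Finset.not_subset.1 hx'
    have hc : 3 * k + 2 ≤ (S.erase i).card := by
      have := Finset.pred_card_le_card_erase (s := S) (a := i)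
      omega
    have := hC (S.erase i) hc x u₀
      (fun a ha => Finset.mem_erase.2 ⟨fun h => hix (h ▸ ha), hx ha⟩)
      (fun a ha => Finset.mem_erase.2
        ⟨fun h => (Finset.mem_sdiff.1 (hu₀ ha)).2 (h ▸ hi), (Finset.mem_sdiff.1 (hu₀ ha)).1⟩)
    refine lnk_mono (fun e he => ⟨he.trans (Finset.erase_subset _ _), fun h => ?_⟩) this
    exact Finset.notMem_erase i S (he (h hi))
  exact lnk_trans (key u hu hu') (lnk_symm (key v hv hv'))

end

section
variable {V E : Type} [Fintype E] {o t : E → V}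

theorem bd_eq_zero_of_cyc {c : E → ℂ} (hc : Cyc o t c) (v : V) : bd o t c v = 0 := by
  unfold bd
  exact sub_eq_zero.2 (hc v)

theorem bd_congr {c c' : E → ℂ} {v : V} (h : ∀ e, o e = v ∨ t e = v → c e = c' e) :
    bd o t c v = bd o t c' v := by
  unfold bd
  congr 1
  · refine Finset.sum_congr rfl fun e _ => ?_
    split_ifs with h1
    · exact h e (Or.inr h1)
    · rfl
  · refine Finset.sum_congr rfl fun e _ => ?_
    split_ifs with h1
    · exact h e (Or.inl h1)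
    · rfl

theorem exists_of_bd_ne {c : E → ℂ} {v : V} (h : bd o t c v ≠ 0) :
    ∃ e, (o e = v ∨ t e = v) ∧ c e ≠ 0 := by
  by_contra hn
  apply h
  rw [bd_congr (c' := 0) fun e he => by
    by_contra h0
    exact hn ⟨e, he, h0⟩]
  simp [bd]

end

/-- an element seen in a subgroup. -/
noncomputable def cl {W : Type} [Group W] (C : Subgroup W) (x : W) : C :=
  open Classical in if h : x ∈ C then ⟨x, h⟩ else 1

theorem cl_val {W : Type} [Group W] {C : Subgroup W} {x : W} (h : x ∈ C) : (cl C x : W) = x := by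
  simp [cl, h]

/-- restriction to a subset of the indices and to a subgroup. -/
noncomputable def restr {ι W : Type} [DecidableEq ι] [Group W] (N : NS ι W) (p : ι → Prop)
    [DecidablePred p] (C : Subgroup W) (hε : ∀ a, p a → N.ε a ∈ C)
    (hπ : ∀ σ : Perm (Subtype p), N.π (Perm.ofSubtype σ) ∈ C)
    (hρ : ∀ a b, p a → p b → a ≠ b → N.ρ a b ∈ C)
    (hl : ∀ a b, p a → p b → a ≠ b → N.lam a b ∈ C) : NS (Subtype p) C where
  ε a := ⟨N.ε a, hε a a.2⟩
  π := (N.π.comp Perm.ofSubtype).codRestrict C hπ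
  ε_sq a := Subtype.ext (N.ε_sq a)
  ε_comm a b := Subtype.ext (N.ε_comm a b)
  π_ε σ a := Subtype.ext (by
    have := N.π_ε (Perm.ofSubtype σ) a
    rw [Perm.ofSubtype_apply_coe] at this
    exact this)
  ρ a b := cl C (N.ρ a b)
  lam a b := cl C (N.lam a b)
  π_ρ σ a b h := Subtype.ext (by
    have h' : (a : ι) ≠ b := fun e => h (Subtype.ext e)
    have h'' : (σ a : ι) ≠ σ b := fun e => h (σ.injective (Subtype.ext e))
    have := N.π_ρ (Perm.ofSubtype σ) a b h'
    rw [Perm.ofSubtype_apply_coe, Perm.ofSubtype_apply_coe] at this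
    simp only [Subgroup.coe_mul, cl_val (hρ a b a.2 b.2 h'),
      cl_val (hρ _ _ (σ a).2 (σ b).2 h'')]
    exact this)
  π_lam σ a b h := Subtype.ext (by
    have h' : (a : ι) ≠ b := fun e => h (Subtype.ext e)
    have h'' : (σ a : ι) ≠ σ b := fun e => h (σ.injective (Subtype.ext e))
    have := N.π_lam (Perm.ofSubtype σ) a b h'
    rw [Perm.ofSubtype_apply_coe, Perm.ofSubtype_apply_coe] at this
    simp only [Subgroup.coe_mul, cl_val (hl a b a.2 b.2 h'),
      cl_val (hl _ _ (σ a).2 (σ b).2 h'')]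
    exact this)
  ε_right a b h := Subtype.ext (by
    have h' : (a : ι) ≠ b := fun e => h (Subtype.ext e)
    simp only [Subgroup.coe_mul, Subgroup.coe_inv, cl_val (hρ a b a.2 b.2 h')]
    exact N.ε_right a b h')
  ε_left a b h := Subtype.ext (by
    have h' : (a : ι) ≠ b := fun e => h (Subtype.ext e)
    simp only [Subgroup.coe_mul, Subgroup.coe_inv, cl_val (hρ a b a.2 b.2 h'),
      cl_val (hl a b a.2 b.2 h')]
    exact N.ε_left a b h')
  ε_other a b c h₁ h₂ h₃ := Subtype.ext (by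
    have h' : (a : ι) ≠ b := fun e => h₁ (Subtype.ext e)
    simp only [Subgroup.coe_mul, cl_val (hρ a b a.2 b.2 h')]
    exact N.ε_other a b c h' (fun e => h₂ (Subtype.ext e)) (fun e => h₃ (Subtype.ext e)))
  ρ_ρ a b c e h₁ h₂ h₃ h₄ h₅ := Subtype.ext (by
    have h' : (a : ι) ≠ b := fun e => h₁ (Subtype.ext e)
    have h'' : (c : ι) ≠ e := fun e => h₂ (Subtype.ext e)
    simp only [Subgroup.coe_mul, cl_val (hρ a b a.2 b.2 h'), cl_val (hρ c e c.2 e.2 h'')]
    exact N.ρ_ρ a b c e h' h'' (fun e => h₃ (Subtype.ext e)) (fun e => h₄ (Subtype.ext e))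
      (fun e => h₅ (Subtype.ext e)))
  ρ_lam a b c e h₁ h₂ h₃ h₄ := Subtype.ext (by
    have h' : (a : ι) ≠ b := fun e => h₁ (Subtype.ext e)
    have h'' : (c : ι) ≠ e := fun e => h₂ (Subtype.ext e)
    simp only [Subgroup.coe_mul, cl_val (hρ a b a.2 b.2 h'), cl_val (hl c e c.2 e.2 h'')]
    exact N.ρ_lam a b c e h' h'' (fun e => h₃ (Subtype.ext e)) (fun e => h₄ (Subtype.ext e)))
  lam_lam a b c e h₁ h₂ h₃ h₄ h₅ := Subtype.ext (by
    have h' : (a : ι) ≠ b := fun e => h₁ (Subtype.ext e)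
    have h'' : (c : ι) ≠ e := fun e => h₂ (Subtype.ext e)
    simp only [Subgroup.coe_mul, cl_val (hl a b a.2 b.2 h'), cl_val (hl c e c.2 e.2 h'')]
    exact N.lam_lam a b c e h' h'' (fun e => h₃ (Subtype.ext e)) (fun e => h₄ (Subtype.ext e))
      (fun e => h₅ (Subtype.ext e)))
  conj_lam a b c h₁ h₂ h₃ := Subtype.ext (by
    have h' : (a : ι) ≠ b := fun e => h₁ (Subtype.ext e)
    have h'' : (c : ι) ≠ a := fun e => h₂ (Subtype.ext e)
    have h''' : (c : ι) ≠ b := fun e => h₃ (Subtype.ext e)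
    simp only [Subgroup.coe_mul, Subgroup.coe_inv, cl_val (hρ a b a.2 b.2 h'),
      cl_val (hl c a c.2 a.2 h''), cl_val (hl c b c.2 b.2 h''')]
    exact N.conj_lam a b c h' h'' h''')
  conj_ρ a b c h₁ h₂ h₃ := Subtype.ext (by
    have h' : (a : ι) ≠ b := fun e => h₁ (Subtype.ext e)
    have h'' : (c : ι) ≠ a := fun e => h₂ (Subtype.ext e)
    have h''' : (c : ι) ≠ b := fun e => h₃ (Subtype.ext e)
    simp only [Subgroup.coe_mul, Subgroup.coe_inv, cl_val (hρ a b a.2 b.2 h'),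
      cl_val (hρ c a c.2 a.2 h''), cl_val (hρ c b c.2 b.2 h''')]
    exact N.conj_ρ a b c h' h'' h''')
  gersten a b h := Subtype.ext (by
    have h' : (a : ι) ≠ b := fun e => h (Subtype.ext e)
    simp only [Subgroup.coe_mul, Subgroup.coe_inv, cl_val (hρ a b a.2 b.2 h'),
      cl_val (hρ b a b.2 a.2 h'.symm), cl_val (hl a b a.2 b.2 h')]
    have := N.gersten a b h'
    rw [← Perm.ofSubtype_swap_eq] at this
    exact this)

theorem ε_comm_lam {ι W : Type} [DecidableEq ι] [Group W] (N : NS ι W) {a b c : ι} (h : a ≠ b)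
    (h₁ : c ≠ a) (h₂ : c ≠ b) : Commute (N.ε c) (N.lam a b) := by
  have h0 : N.lam a b = (N.ε a * N.ρ a b * N.ε a)⁻¹ := by rw [N.ε_left a b h, inv_inv]
  rw [h0]
  have h1 : Commute (N.ε c) (N.ε a) := N.ε_comm c a
  exact ((h1.mul_right (N.ε_other a b c h h₁ h₂)).mul_right h1).inv_right

end Pool.Agent.MP_3ce0a0_al.H90
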